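import Mathlib
import Pool.Agent.Helper2GI.LargeD
import Pool.Agent.Helper2GI.DensL

/-!
The word problem for graph incidence groups is solvable by one algorithm for almost all simple
graphs, with all colourings, and for all multigraphs whose minimum degree is large compared with
the edge multiplicities.
-/

set_option autoImplicit false

namespace Pool.Agent.Results.MP_262b4d_al.AlmostAllGraphs

open Pool.Agent.Helper2GI Filter Topology

theorem result : Solvable Large ∧
    Tendsto (fun n => (Nat.card {G : SimpleGraph (Fin n) //
      ¬ ∀ c, IsCode G c → Valid c ∧ Large c} : ℝ) / Nat.card (SimpleGraph (Fin n)))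
      atTop (𝓝 0) := by
  refine ⟨large_solvable, density _ ?_⟩
  intro n G hG c hc
  refine ⟨hc.valid, 1, fun u v _ _ huv => hc.joining huv, ?_⟩
  intro v hv
  classical
  have h1 : v < n := by rw [← hc.1]; exact hv
  have h2 := hc.degree ⟨v, h1⟩
  have h3 := hG ⟨v, h1⟩
  rw [Set.ncard_eq_toFinset_card', ← SimpleGraph.neighborFinset_def,
    SimpleGraph.card_neighborFinset_eq_degree] at h3
  rw [mul_one]
  show 80 < degree c v
  have h4 : degree c v = G.degree ⟨v, h1⟩ := h2
  rw [h4]
  exact h3

end Pool.Agent.Results.MP_262b4d_al.AlmostAllGraphs
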