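import Mathlib
import Pool.Agent.Helper2GI.Sw4

/-!
The word problem for graph incidence groups of coloured multigraphs assembled from planar discs in
a nonpositively curved pattern is solvable by one algorithm, and this class contains almost all
simple graphs with given degrees, at least three and bounded by a small power of the number of
vertices (in particular almost all `d`-regular graphs, for each `d ≥ 3`), with all their
colourings.
-/

set_option autoImplicit false

namespace Pool.Agent.Results.MP_262b4d_al.GivenDegrees

open Pool.Agent.Helper2GI

/-- The class contains all triangle-free simple graphs of minimum degree at least four, with all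
their colourings. -/
theorem triangleFree (n : ℕ) (G : SimpleGraph (Fin n)) (hG : G.CliqueFree 3)
    (hd : ∀ v, 4 ≤ (G.neighborSet v).ncard) (c : Code) (hc : IsCode G c) :
    Valid c ∧ Assembled c := triangleFree_assembled n G hG hd c hc

theorem result : Solvable Assembled ∧
    ∃ K : ℕ, ∀ (Δ n : ℕ) (δ : Fin n → ℕ), (∀ v, 3 ≤ δ v ∧ δ v ≤ Δ) →
      Nat.card {G : SimpleGraph (Fin n) // (∀ v, (G.neighborSet v).ncard = δ v) ∧
        ¬ ∀ c, IsCode G c → Valid c ∧ Assembled c} * n ≤
      K * Δ ^ 52 * Nat.card {G : SimpleGraph (Fin n) // ∀ v, (G.neighborSet v).ncard = δ v} :=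
  ⟨assembled_solvable, degrees_density⟩

end Pool.Agent.Results.MP_262b4d_al.GivenDegrees
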