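import Mathlib
import Pool.Agent.Helper2GI.Fn5
import Pool.Agent.Helper2GI.Fw5

/-!
The word problem for graph incidence groups of coloured graphs which have an embedding of
face-width at least four in closed surfaces, orientable or not, is solvable by one algorithm.
Planar graphs are among these graphs.
-/

set_option autoImplicit false

namespace Pool.Agent.Results.MP_262b4d_al.LocallyPlanar

open Pool.Agent.Helper2GI

theorem result : Solvable LocallyPlanar := locally_solvable

/-- Graphs with an embedding of face-width at least four in closed orientable surfaces belong to
the class. -/
theorem orientable {c : Code} (h : FaceWidthFour c) : LocallyPlanar c := faceWidth_locally h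

/-- Planar graphs belong to the class. -/
theorem planar {c : Code} (hV : Valid c) (h : Planar c) : LocallyPlanar c :=
  faceWidth_locally (planar_faceWidth hV h)

end Pool.Agent.Results.MP_262b4d_al.LocallyPlanar
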