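import Mathlib
import Pool.Agent.Helper2GI.PetE

/-!
The word problem for the graph incidence groups of the Petersen graph, with all colourings, is
solvable by one algorithm.
-/

set_option autoImplicit false

namespace Pool.Agent.Results.MP_262b4d_al.Petersen

open Pool.Agent.Helper2GI

theorem result : Solvable IsPetersen := petersen_solvable

end Pool.Agent.Results.MP_262b4d_al.Petersen
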